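import Mathlib

/-!
# Pseudorandom clique-free graphs: common tools

Two lemmas used for all the constructions of this folder:

* `PRK.bound`: if the numbers of common neighbours in a graph on `S × M` have a simple shape
  (a constant for different first coordinates, zero for equal first coordinates, up to a correction),
  then the graph has small eigenvalues on vectors orthogonal to the all-ones vector;
* `PRK.transport`: a graph on a finite type gives one on `Fin n`.
-/

set_option autoImplicit false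
open Classical

namespace Pool.Agent.PRK

/-- A quadratic form bound from the counts of common neighbours. -/
theorem bound {S M : Type} [Fintype S] [Fintype M] (adj : S × M → S × M → Prop)
    (a b c : ℝ) (hb : 0 ≤ b) (hc : 0 ≤ c)
    (hcount : ∀ x y : S × M,
      ((Finset.univ.filter (fun z : S × M => adj z x ∧ adj z y)).card : ℝ)
        = (if x = y then a else 0) + (if x.1 = y.1 then 0 else b)
          - (if x.1 ≠ y.1 ∧ x.2 = y.2 then c else 0))
    (f : S × M → ℝ) (hf : ∑ x, f x = 0) :
    ∑ z, (∑ y, if adj z y then f y else 0) ^ 2 ≤ (a + c) * ∑ x, f x ^ 2 := by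
  -- expand the square
  have h1 : ∑ z, (∑ y, if adj z y then f y else 0) ^ 2
      = ∑ x, ∑ y, f x * f y *
        ((Finset.univ.filter (fun z : S × M => adj z x ∧ adj z y)).card : ℝ) := by
    have h2 : ∀ z : S × M, (∑ y, if adj z y then f y else 0) ^ 2
        = ∑ x, ∑ y, f x * f y * (if adj z x ∧ adj z y then (1 : ℝ) else 0) := by
      intro z
      rw [sq, Finset.sum_mul_sum]
      refine Finset.sum_congr rfl fun x _ => Finset.sum_congr rfl fun y _ => ?_
      by_cases h3 : adj z x <;> by_cases h4 : adj z y <;> simp [h3, h4]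
    simp_rw [h2]
    rw [Finset.sum_comm]
    refine Finset.sum_congr rfl fun x _ => ?_
    rw [Finset.sum_comm]
    refine Finset.sum_congr rfl fun y _ => ?_
    rw [← Finset.mul_sum, Finset.card_filter]
    push_cast
    rfl
  rw [h1]
  simp_rw [hcount]
  -- the pieces
  have e1 : ∑ x, ∑ y, f x * f y * (if x = y then a else 0) = a * ∑ x, f x ^ 2 := by
    rw [Finset.mul_sum]
    refine Finset.sum_congr rfl fun x _ => ?_
    simp only [mul_ite, mul_zero]
    rw [Finset.sum_ite_eq]
    simp
    ring
  have e2 : ∑ x : S × M, ∑ y : S × M, f x * f y * (if x.1 = y.1 then (0 : ℝ) else b)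
      = b * (∑ x, f x) ^ 2 - b * ∑ s : S, (∑ m, f (s, m)) ^ 2 := by
    have e3 : ∑ x : S × M, ∑ y : S × M, f x * f y * (if x.1 = y.1 then (0 : ℝ) else b)
        = ∑ x : S × M, ∑ y : S × M, (b * (f x * f y) - (if x.1 = y.1 then b * (f x * f y) else 0)) := by
      refine Finset.sum_congr rfl fun x _ => Finset.sum_congr rfl fun y _ => ?_
      split_ifs <;> ring
    rw [e3]
    simp_rw [Finset.sum_sub_distrib]
    congr 1
    · rw [sq, Finset.sum_mul_sum, Finset.mul_sum]
      refine Finset.sum_congr rfl fun x _ => ?_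
      rw [Finset.mul_sum]
    · rw [Finset.mul_sum, Fintype.sum_prod_type]
      refine Finset.sum_congr rfl fun s _ => ?_
      rw [sq, Finset.sum_mul_sum, Finset.mul_sum]
      refine Finset.sum_congr rfl fun m _ => ?_
      rw [Fintype.sum_prod_type, Finset.mul_sum]
      simp only
      rw [Finset.sum_eq_single s]
      · simp
      · intro t _ ht
        have hts : s ≠ t := fun h => ht h.symm
        simp [hts]
      · intro h
        exact absurd (Finset.mem_univ s) h
  have e4 : ∑ x : S × M, ∑ y : S × M, f x * f y * (if x.1 ≠ y.1 ∧ x.2 = y.2 then c else 0)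
      = c * ∑ m : M, (∑ s, f (s, m)) ^ 2 - c * ∑ x, f x ^ 2 := by
    have e5 : ∀ x : S × M, ∑ y : S × M, f x * f y * (if x.1 ≠ y.1 ∧ x.2 = y.2 then c else 0)
        = c * (f x * ∑ s : S, f (s, x.2)) - c * f x ^ 2 := by
      rintro ⟨s, m⟩
      have e6 : ∑ y : S × M, f (s, m) * f y * (if s ≠ y.1 ∧ m = y.2 then c else 0)
          = ∑ t : S, (c * (f (s, m) * f (t, m)) - (if s = t then c * (f (s, m) * f (t, m)) else 0)) := by
        rw [Fintype.sum_prod_type]
        refine Finset.sum_congr rfl fun t _ => ?_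
        simp only
        rw [Finset.sum_eq_single m]
        · by_cases hst : s = t
          · simp [hst]
          · simp [hst]; ring
        · intro m' _ hm'
          rw [if_neg (fun h => hm' h.2.symm)]
          simp
        · intro h
          exact absurd (Finset.mem_univ m) h
      simp only
      rw [e6, Finset.sum_sub_distrib, Finset.sum_ite_eq, ← Finset.mul_sum, ← Finset.mul_sum,
        if_pos (Finset.mem_univ s)]
      ring
    simp_rw [e5]
    rw [Finset.sum_sub_distrib, ← Finset.mul_sum, ← Finset.mul_sum]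
    congr 2
    rw [Fintype.sum_prod_type_right]
    refine Finset.sum_congr rfl fun m _ => ?_
    simp only
    rw [sq, Finset.sum_mul]
  have e7 : ∑ x : S × M, ∑ y : S × M, f x * f y * ((if x = y then a else 0)
      + (if x.1 = y.1 then 0 else b) - (if x.1 ≠ y.1 ∧ x.2 = y.2 then c else 0))
      = a * ∑ x, f x ^ 2 + (b * (∑ x, f x) ^ 2 - b * ∑ s : S, (∑ m, f (s, m)) ^ 2)
        - (c * ∑ m : M, (∑ s, f (s, m)) ^ 2 - c * ∑ x, f x ^ 2) := by
    rw [← e1, ← e2, ← e4]
    simp_rw [← Finset.sum_add_distrib, ← Finset.sum_sub_distrib]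
    refine Finset.sum_congr rfl fun x _ => Finset.sum_congr rfl fun y _ => ?_
    ring
  rw [e7, hf]
  have h8 : 0 ≤ ∑ s : S, (∑ m, f (s, m)) ^ 2 := Finset.sum_nonneg fun _ _ => sq_nonneg _
  have h9 : 0 ≤ ∑ m : M, (∑ s, f (s, m)) ^ 2 := Finset.sum_nonneg fun _ _ => sq_nonneg _
  have h10 := mul_nonneg hb h8
  have h11 := mul_nonneg hc h9
  nlinarith

/-- From an operator bound to the bound of the quadratic form. -/
theorem quad_bound {V : Type} [Fintype V] (adj : V → V → Prop) (f : V → ℝ) (K : ℝ) (hK : 0 ≤ K)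
    (h : ∑ z, (∑ y, if adj z y then f y else 0) ^ 2 ≤ K * ∑ x, f x ^ 2) :
    |∑ x, ∑ y, (if adj x y then f x * f y else 0)| ≤ Real.sqrt K * ∑ x, f x ^ 2 := by
  have h1 : ∑ x, ∑ y, (if adj x y then f x * f y else 0)
      = ∑ x, f x * (∑ y, if adj x y then f y else 0) := by
    refine Finset.sum_congr rfl fun x _ => ?_
    rw [Finset.mul_sum]
    refine Finset.sum_congr rfl fun y _ => ?_
    split_ifs <;> simp
  have hs : 0 ≤ ∑ x, f x ^ 2 := Finset.sum_nonneg fun _ _ => sq_nonneg _
  rw [h1]
  refine abs_le_of_sq_le_sq ?_ (mul_nonneg (Real.sqrt_nonneg _) hs)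
  calc (∑ x, f x * (∑ y, if adj x y then f y else 0)) ^ 2
      ≤ (∑ x, f x ^ 2) * ∑ x, (∑ y, if adj x y then f y else 0) ^ 2 :=
        Finset.sum_mul_sq_le_sq_mul_sq _ _ _
    _ ≤ (∑ x, f x ^ 2) * (K * ∑ x, f x ^ 2) := by gcongr
    _ = (Real.sqrt K * ∑ x, f x ^ 2) ^ 2 := by
        rw [mul_pow, Real.sq_sqrt hK]; ring

/-- A graph on a finite type is turned into one on `Fin n`. -/
theorem transport {V : Type} [Fintype V] (G : SimpleGraph V) (n d k : ℕ) (K : ℝ)
    (hn : Fintype.card V = n) (hreg : ∀ v, (Finset.univ.filter (fun w => G.Adj v w)).card = d)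
    (hk : G.CliqueFree k)
    (hsp : ∀ f : V → ℝ, (∑ x, f x) = 0 →
      |∑ x, ∑ y, (if G.Adj x y then f x * f y else 0)| ≤ K * ∑ x, f x ^ 2) :
    ∃ H : SimpleGraph (Fin n), H.IsRegularOfDegree d ∧ H.CliqueFree k ∧
      ∀ x : Fin n → ℝ, (∑ i, x i) = 0 →
        |∑ i, ∑ j, (if H.Adj i j then x i * x j else 0)| ≤ K * ∑ i, x i ^ 2 := by
  let e : V ≃ Fin n := Fintype.equivFinOfCardEq hn
  refine ⟨G.comap e.symm, ?_, ?_, ?_⟩
  · intro i
    rw [← hreg (e.symm i)]
    rw [← SimpleGraph.card_neighborFinset_eq_degree]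
    refine Finset.card_bij (fun j _ => e.symm j) ?_ ?_ ?_
    · intro j hj
      simpa using hj
    · intro a _ b _ h
      exact e.symm.injective h
    · intro w hw
      refine ⟨e w, ?_, by simp⟩
      simpa using hw
  · exact hk.comap ⟨(SimpleGraph.Embedding.comap e.symm.toEmbedding G).toCopy⟩
  · intro x hx
    have h1 := hsp (fun v => x (e v)) (by rw [← hx]; exact Equiv.sum_comp e x)
    have h2 : ∑ v, (fun v => x (e v)) v ^ 2 = ∑ i, x i ^ 2 := Equiv.sum_comp e (fun i => x i ^ 2)
    have h3 : ∑ v, ∑ w, (if G.Adj v w then (fun v => x (e v)) v * (fun v => x (e v)) w else 0)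
        = ∑ i, ∑ j, (if (G.comap e.symm).Adj i j then x i * x j else 0) := by
      rw [← Equiv.sum_comp e]
      refine Finset.sum_congr rfl fun v _ => ?_
      rw [← Equiv.sum_comp e]
      refine Finset.sum_congr rfl fun w _ => ?_
      simp
    rw [h2, h3] at h1
    exact h1

end Pool.Agent.PRK
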