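import Mathlib
import Pool.Agent.PRK.Core

/-!
# `K_4`-free pseudorandom graphs of density `n ^ (-1/4)`

Let `q s = 2 ^ (4 ^ s)`, `ee s = ∏_{i<s} (q i ^ 2 + 1)` and `NN s = ∏_{i<s} (q i + 1)`, so that
`ee s * NN s = q s - 1`.  Key fact (`sumfree`): in a field of characteristic two there are no
`x, y` with `x ^ ee s = y ^ ee s = 1` and `1 + x + y = 0`.

For `L` the field with `q s` elements let `C` be the group of `ee s`-th powers of `Lˣ`.
The graph has vertex set `L × C`, and `(s, m)` is adjacent to `(s', m')` if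
`(s + s') ^ ee s = m * m'`.
-/

set_option autoImplicit false
open Classical

namespace Pool.Agent.PRK

/-- `q s = 2 ^ (4 ^ s)` -/
def qq (s : ℕ) : ℕ := 2 ^ (4 ^ s)

/-- the order of the sum-free subgroup -/
def ee (s : ℕ) : ℕ := ∏ i ∈ Finset.range s, (qq i ^ 2 + 1)

/-- its index -/
def NN (s : ℕ) : ℕ := ∏ i ∈ Finset.range s, (qq i + 1)

theorem qq_succ (s : ℕ) : qq (s + 1) = qq s ^ 4 := by
  unfold qq
  rw [← pow_mul, pow_succ]

theorem ee_succ (s : ℕ) : ee (s + 1) = ee s * (qq s ^ 2 + 1) := Finset.prod_range_succ _ _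

theorem NN_succ (s : ℕ) : NN (s + 1) = NN s * (qq s + 1) := Finset.prod_range_succ _ _

theorem ee_mul_NN (s : ℕ) : ee s * NN s + 1 = qq s := by
  induction s with
  | zero => simp [ee, NN, qq]
  | succ s ih =>
    rw [ee_succ, NN_succ, qq_succ]
    have h : ee s * (qq s ^ 2 + 1) * (NN s * (qq s + 1)) + 1
        = (ee s * NN s) * ((qq s ^ 2 + 1) * (qq s + 1)) + 1 := by ring
    rw [h]
    generalize ee s * NN s = a at *
    rw [← ih]
    ring

theorem two_le_qq (s : ℕ) : 2 ≤ qq s := by
  unfold qq
  calc 2 = 2 ^ 1 := by norm_num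
    _ ≤ 2 ^ (4 ^ s) := Nat.pow_le_pow_right (by norm_num) (Nat.one_le_pow _ _ (by norm_num))

theorem ee_pos (s : ℕ) : 0 < ee s := Finset.prod_pos fun _ _ => Nat.succ_pos _

theorem NN_pos (s : ℕ) : 0 < NN s := Finset.prod_pos fun _ _ => Nat.succ_pos _

/-- `NN s ^ 2 ≤ 3 ee s`, in a form that can be proved by induction -/
theorem NN_sq_le_aux (s : ℕ) : NN s ^ 2 * (qq s + 4) ≤ 3 * ee s * qq s := by
  induction s with
  | zero => simp [ee, NN, qq]
  | succ s ih =>
    rw [ee_succ, NN_succ, qq_succ]
    have hq := two_le_qq s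
    generalize qq s = q at *
    generalize NN s = n at *
    generalize ee s = e at *
    -- `n² (q+4) ≤ 3 e q`
    have h1 : (q + 1) ^ 2 * (q ^ 4 + 4) ≤ (q + 4) * (q ^ 2 + 1) * q ^ 3 := by
      obtain ⟨r, rfl⟩ := Nat.exists_eq_add_of_le hq
      ring_nf
      nlinarith [Nat.zero_le r, Nat.zero_le (r ^ 2), Nat.zero_le (r ^ 3), Nat.zero_le (r ^ 4),
        Nat.zero_le (r ^ 5)]
    calc (n * (q + 1)) ^ 2 * (q ^ 4 + 4) = n ^ 2 * ((q + 1) ^ 2 * (q ^ 4 + 4)) := by ring
      _ ≤ n ^ 2 * ((q + 4) * (q ^ 2 + 1) * q ^ 3) := by gcongr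
      _ = (n ^ 2 * (q + 4)) * ((q ^ 2 + 1) * q ^ 3) := by ring
      _ ≤ (3 * e * q) * ((q ^ 2 + 1) * q ^ 3) := by gcongr
      _ = 3 * (e * (q ^ 2 + 1)) * q ^ 4 := by ring

theorem NN_sq_le (s : ℕ) : NN s ^ 2 ≤ 3 * ee s := by
  have h := NN_sq_le_aux s
  have hq := two_le_qq s
  by_contra hlt
  push Not at hlt
  have : 3 * ee s * qq s < NN s ^ 2 * (qq s + 4) := by
    calc 3 * ee s * qq s < NN s ^ 2 * qq s := by
          apply Nat.mul_lt_mul_of_pos_right hlt; omega
      _ ≤ NN s ^ 2 * (qq s + 4) := by gcongr; omega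
  omega

/-- the Frobenius power `x ↦ x ^ q s` is additive -/
theorem add_pow_qq {L : Type} [Field L] [CharP L 2] (s : ℕ) (x y : L) :
    (x + y) ^ qq s = x ^ qq s + y ^ qq s := by
  have : Fact (Nat.Prime 2) := ⟨Nat.prime_two⟩
  exact add_pow_char_pow x y 2 (4 ^ s)

theorem add_self_two {L : Type} [Field L] [CharP L 2] (x : L) : x + x = 0 :=
  CharTwo.add_self_eq_zero x

theorem eq_of_add_eq_zero_two {L : Type} [Field L] [CharP L 2] {x y : L} (h : x + y = 0) : x = y := by
  have := add_self_two y
  linear_combination h - this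

/-- **The group of `ee s`-th roots of unity is sum-free** in characteristic two. -/
theorem sumfree (s : ℕ) {L : Type} [Field L] [CharP L 2] :
    ∀ x y : L, x ^ ee s = 1 → y ^ ee s = 1 → 1 + x + y ≠ 0 := by
  induction s with
  | zero =>
    intro x y hx hy h
    simp only [ee, Finset.range_zero, Finset.prod_empty, pow_one] at hx hy
    rw [hx, hy, add_self_two, zero_add] at h
    exact one_ne_zero h
  | succ s ih =>
    -- the descent
    have desc : ∀ x y : L, x ^ ee (s + 1) = 1 → y ^ ee (s + 1) = 1 → 1 + x + y = 0 →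
        x ^ ee s = 1 := by
      intro x y hx hy h
      rw [ee_succ, mul_comm, pow_mul] at hx hy
      set q := qq s with hq
      set a := x ^ (q ^ 2 + 1) with ha
      set b := y ^ (q ^ 2 + 1) with hb
      have fix : ∀ c : L, c ^ ee s = 1 → c ^ q = c := by
        intro c hc
        rw [hq, ← ee_mul_NN s, pow_succ, pow_mul, hc, one_pow, one_mul]
      have ha' : a ^ q = a := fix a hx
      have hb' : b ^ q = b := fix b hy
      have hy1 : y = 1 + x := (eq_of_add_eq_zero_two h).symm
      have hqq : ∀ u v : L, (u + v) ^ (q ^ 2) = u ^ (q ^ 2) + v ^ (q ^ 2) := by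
        intro u v
        rw [sq, pow_mul, pow_mul, pow_mul, hq, add_pow_qq, add_pow_qq]
      set X2 := x ^ (q ^ 2) with hX2
      have hps : ∀ u : L, u ^ (q ^ 2 + 1) = u ^ (q ^ 2) * u := fun u => pow_succ u (q ^ 2)
      have haX : a = x * X2 := by rw [ha, hps, ← hX2]; ring
      have hb2 : b = 1 + x + X2 + a := by
        rw [hb, hy1, hps, hqq, one_pow, haX, ← hX2]
        ring
      -- `t = x + X2` is fixed
      have ht : x + X2 = b + 1 + a := by
        rw [hb2]
        have h1 := add_self_two (1 : L)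
        have h2 := add_self_two a
        linear_combination -h1 - h2
      have ht' : (x + X2) ^ q = x + X2 := by
        rw [ht, hq, add_pow_qq, add_pow_qq, ← hq, ha', hb', one_pow]
      set X1 := x ^ q with hX1
      have hX12 : X1 ^ q = X2 := by rw [hX1, hX2, ← pow_mul, sq]
      -- `X1` is a root of the quadratic of `x`
      have hroot : (X1 + x) * (X1 + X2) = 0 := by
        have h1 : (x ^ 2 + (x + X2) * x + a) ^ q = 0 := by
          have : x ^ 2 + (x + X2) * x + a = 0 := by
            rw [haX]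
            have h1 := add_self_two (x ^ 2)
            have h2 := add_self_two (x * X2)
            linear_combination h1 + h2
          rw [this]
          exact zero_pow (by have := two_le_qq s; omega)
        rw [hq, add_pow_qq, add_pow_qq, ← hq, mul_pow, ht', ha', ← pow_mul, mul_comm 2 q, pow_mul,
          ← hX1, haX] at h1
        linear_combination h1
      have hxq : X1 = x := by
        rcases mul_eq_zero.mp hroot with h1 | h1
        · exact eq_of_add_eq_zero_two h1
        · have h2 : X1 = X2 := eq_of_add_eq_zero_two h1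
          have h3 : (X1 + x) ^ q = 0 := by
            rw [hq, add_pow_qq, ← hq, hX12, ← hX1, h2, add_self_two]
          exact eq_of_add_eq_zero_two (pow_eq_zero_iff (by have := two_le_qq s; omega) |>.mp h3)
      have hX2x : X2 = x := by rw [← hX12, hxq]; exact hxq
      have hax : a = x ^ 2 := by rw [haX, hX2x]; ring
      have h4 : (x ^ ee s) ^ 2 = 1 := by
        rw [← pow_mul, mul_comm, pow_mul, ← hax]; exact hx
      have h5 : (x ^ ee s + 1) ^ 2 = 0 := by
        have h6 := add_self_two (x ^ ee s)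
        have h7 := add_self_two (1 : L)
        linear_combination h4 + h6 + h7
      exact eq_of_add_eq_zero_two (pow_eq_zero_iff (two_ne_zero) |>.mp h5)
    intro x y hx hy h
    exact ih x y (desc x y hx hy h) (desc y x hy hx (by rw [← h]; ring)) h

section graph

set_option linter.unusedSectionVars false

variable {L : Type} [Field L] [Fintype L] [CharP L 2] (e : ℕ)

/-- The value group: the `e`-th powers of `Lˣ`. -/
abbrev CC (L : Type) [Field L] (e : ℕ) : Type := ↥(powMonoidHom e : Lˣ →* Lˣ).range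

/-- Adjacency on `L × C`. -/
def adj4 (x y : L × CC L e) : Prop :=
  (x.1 + y.1) ^ e = ((x.2 : Lˣ) : L) * ((y.2 : Lˣ) : L)

/-- The power map onto the value group. -/
def cl (e : ℕ) (u : Lˣ) : CC L e := ⟨u ^ e, ⟨u, rfl⟩⟩

theorem cl_coe (u : Lˣ) : (((cl e u : CC L e) : Lˣ) : L) = (u : L) ^ e := by
  simp [cl]

theorem CC_ext {a b : CC L e} (h : ((a : Lˣ) : L) = ((b : Lˣ) : L)) : a = b :=
  Subtype.ext (Units.ext h)

theorem adj4_symm {x y : L × CC L e} (h : adj4 e x y) : adj4 e y x := by
  unfold adj4 at *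
  rw [add_comm, mul_comm]
  exact h

theorem adj4_ne (he : 0 < e) {x y : L × CC L e} (h : adj4 e x y) : x.1 + y.1 ≠ 0 := by
  intro h0
  unfold adj4 at h
  rw [h0, zero_pow he.ne'] at h
  exact mul_ne_zero (Units.ne_zero _) (Units.ne_zero _) h.symm

/-- The graph. -/
def G4 (he : 0 < e) : SimpleGraph (L × CC L e) where
  Adj x y := adj4 e x y
  symm := ⟨fun _ _ h => adj4_symm e h⟩
  loopless := ⟨fun x h => adj4_ne e he h (add_self_two x.1)⟩

/-- no four pairwise adjacent vertices -/
theorem G4_cliqueFree (he : 0 < e)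
    (hs : ∀ x y : L, x ^ e = 1 → y ^ e = 1 → 1 + x + y ≠ 0) :
    (G4 (L := L) e he).CliqueFree 4 := by
  rw [SimpleGraph.cliqueFree_iff]
  refine ⟨fun φ => ?_⟩
  have hadj : ∀ i j : Fin 4, i ≠ j → adj4 e (φ i) (φ j) := by
    intro i j hij
    exact φ.toHom.map_adj (show (SimpleGraph.completeGraph (Fin 4)).Adj i j from hij)
  have h01 := hadj 0 1 (by decide)
  have h02 := hadj 0 2 (by decide)
  have h03 := hadj 0 3 (by decide)
  have h12 := hadj 1 2 (by decide)
  have h13 := hadj 1 3 (by decide)
  have h23 := hadj 2 3 (by decide)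
  have n01 := adj4_ne e he h01
  have n23 := adj4_ne e he h23
  unfold adj4 at h01 h02 h03 h12 h13 h23
  generalize (φ 0).1 = s0 at *
  generalize (φ 1).1 = s1 at *
  generalize (φ 2).1 = s2 at *
  generalize (φ 3).1 = s3 at *
  generalize (((φ 0).2 : Lˣ) : L) = m0 at *
  generalize (((φ 1).2 : Lˣ) : L) = m1 at *
  generalize (((φ 2).2 : Lˣ) : L) = m2 at *
  generalize (((φ 3).2 : Lˣ) : L) = m3 at *
  have hA : ((s0 + s1) * (s2 + s3)) ^ e = m0 * m1 * m2 * m3 := by
    rw [mul_pow, h01, h23]; ring
  have hB : ((s0 + s2) * (s1 + s3)) ^ e = m0 * m1 * m2 * m3 := by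
    rw [mul_pow, h02, h13]; ring
  have hC : ((s0 + s3) * (s1 + s2)) ^ e = m0 * m1 * m2 * m3 := by
    rw [mul_pow, h03, h12]; ring
  have hA0 : (s0 + s1) * (s2 + s3) ≠ 0 := mul_ne_zero n01 n23
  have hM : m0 * m1 * m2 * m3 ≠ 0 := by rw [← hA]; exact pow_ne_zero _ hA0
  refine hs ((s0 + s2) * (s1 + s3) / ((s0 + s1) * (s2 + s3)))
    ((s0 + s3) * (s1 + s2) / ((s0 + s1) * (s2 + s3))) ?_ ?_ ?_
  · rw [div_pow, hA, hB, div_self hM]
  · rw [div_pow, hA, hC, div_self hM]
  · have hsum : (s0 + s1) * (s2 + s3) + (s0 + s2) * (s1 + s3) + (s0 + s3) * (s1 + s2) = 0 := by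
      have h2 : (2 : L) = 0 := CharTwo.two_eq_zero
      linear_combination (s0 * s1 + s0 * s2 + s0 * s3 + s1 * s2 + s1 * s3 + s2 * s3) * h2
    field_simp
    linear_combination hsum

/-- neighbours of `x` are parametrised by the units of `L` -/
theorem card_nbr (he : 0 < e) (x : L × CC L e) :
    (Finset.univ.filter (fun z => adj4 e z x)).card = Fintype.card Lˣ := by
  rw [← Finset.card_univ]
  symm
  refine Finset.card_bij (fun u _ => (x.1 + (u : L), cl e u * x.2⁻¹)) ?_ ?_ ?_
  · intro u _
    rw [Finset.mem_filter]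
    refine ⟨Finset.mem_univ _, ?_⟩
    unfold adj4
    simp only
    have h1 : x.1 + (u : L) + x.1 = u := by
      have := add_self_two x.1
      linear_combination this
    rw [h1]
    push_cast
    rw [cl_coe]
    field_simp
  · intro u _ v _ h
    have h1 := congrArg Prod.fst h
    simp only at h1
    exact Units.ext (add_left_cancel h1)
  · intro z hz
    rw [Finset.mem_filter] at hz
    have hz1 := hz.2
    have hne := adj4_ne e he hz1
    refine ⟨Units.mk0 (z.1 + x.1) hne, Finset.mem_univ _, ?_⟩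
    refine Prod.ext ?_ ?_
    · simp only [Units.val_mk0]
      have := add_self_two x.1
      linear_combination this
    · simp only
      rw [mul_inv_eq_iff_eq_mul]
      apply CC_ext
      rw [cl_coe]
      push_cast
      exact hz1

/-- fibres of the power map -/
theorem card_fiber (he : e ∣ Fintype.card L - 1) (g : CC L e) :
    (Finset.univ.filter (fun u : Lˣ => cl e u = g)).card = e := by
  have h1 : (Finset.univ.filter (fun u : Lˣ => cl e u = g)).card
      = (Finset.univ.filter (fun u : Lˣ => cl e u = 1)).card := by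
    obtain ⟨⟨_, ⟨v, rfl⟩⟩, rfl⟩ : ∃ h : CC L e, h = g := ⟨g, rfl⟩
    symm
    refine Finset.card_bij (fun u _ => u * v) ?_ ?_ ?_
    · intro u hu
      rw [Finset.mem_filter] at hu ⊢
      refine ⟨Finset.mem_univ _, ?_⟩
      have h2 := congrArg Subtype.val hu.2
      simp only [cl, OneMemClass.coe_one] at h2
      apply Subtype.ext
      simp [cl, mul_pow, h2]
    · intro a _ b _ h
      exact mul_right_cancel h
    · intro u hu
      rw [Finset.mem_filter] at hu
      refine ⟨u * v⁻¹, ?_, by simp⟩
      rw [Finset.mem_filter]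
      refine ⟨Finset.mem_univ _, ?_⟩
      have h2 := congrArg Subtype.val hu.2
      simp only [cl, powMonoidHom_apply] at h2
      apply Subtype.ext
      simp [cl, mul_pow, h2]
  rw [h1]
  have h2 := IsCyclic.card_powMonoidHom_ker (G := Lˣ) e
  rw [Nat.card_eq_fintype_card (α := Lˣ), Fintype.card_units, Nat.gcd_eq_right he] at h2
  refine Eq.trans ?_ h2
  rw [Nat.card_eq_fintype_card, Fintype.card_subtype]
  congr 1
  ext u
  simp only [Finset.mem_filter, Finset.mem_univ, true_and, MonoidHom.mem_ker, powMonoidHom_apply]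
  constructor
  · intro h
    have h2 := congrArg Subtype.val h
    simpa [cl] using h2
  · intro h
    apply Subtype.ext
    simpa [cl] using h

theorem card_CC (he : e ∣ Fintype.card L - 1) :
    Fintype.card (CC L e) = (Fintype.card L - 1) / e := by
  have h2 := IsCyclic.card_powMonoidHom_range (G := Lˣ) e
  rw [Nat.card_eq_fintype_card (α := Lˣ), Fintype.card_units, Nat.gcd_eq_right he] at h2
  rw [← h2, Nat.card_eq_fintype_card]

/-- the numbers of common neighbours, different first coordinates -/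
theorem card_common (he : 0 < e) (x y : L × CC L e) (hxy : x.1 ≠ y.1) :
    (Finset.univ.filter (fun z => adj4 e z x ∧ adj4 e z y)).card
      = (Finset.univ.filter (fun u : Lˣ => cl e u = x.2 * y.2⁻¹ ∧ u ≠ 1)).card := by
  symm
  have hxy0 : x.1 + y.1 ≠ 0 := fun h => hxy (eq_of_add_eq_zero_two h)
  have hone : ∀ u : Lˣ, u ≠ 1 → (1 + (u : L)) ≠ 0 := by
    intro u hu h
    exact hu (Units.ext (by rw [Units.val_one]; exact (eq_of_add_eq_zero_two h).symm))
  -- the value of the first coordinate
  have key : ∀ u : Lˣ, u ≠ 1 →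
      (x.1 + u * y.1) / (1 + (u : L)) + y.1 = (x.1 + y.1) / (1 + (u : L)) := by
    intro u hu
    have h1 := hone u hu
    field_simp
    have := add_self_two ((u : L) * y.1)
    linear_combination this
  have key2 : ∀ u : Lˣ, u ≠ 1 →
      (x.1 + u * y.1) / (1 + (u : L)) + x.1 = u * ((x.1 + y.1) / (1 + (u : L))) := by
    intro u hu
    have h1 := hone u hu
    field_simp
    have := add_self_two (x.1)
    linear_combination this
  refine Finset.card_bij (fun u hu => ((x.1 + u * y.1) / (1 + (u : L)),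
    cl e (Units.mk0 ((x.1 + y.1) / (1 + (u : L)))
      (div_ne_zero hxy0 (hone u (Finset.mem_filter.mp hu).2.2))) * y.2⁻¹)) ?_ ?_ ?_
  · intro u hu
    have hu2 := (Finset.mem_filter.mp hu).2
    have h1 := hone u hu2.2
    rw [Finset.mem_filter]
    refine ⟨Finset.mem_univ _, ?_, ?_⟩
    · unfold adj4
      simp only
      rw [key2 u hu2.2]
      push_cast
      rw [cl_coe, Units.val_mk0, mul_pow]
      have h3 := congrArg (fun c : CC L e => ((c : Lˣ) : L)) hu2.1
      simp only [cl_coe] at h3
      push_cast at h3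
      rw [h3]
      ring
    · unfold adj4
      simp only
      rw [key u hu2.2]
      push_cast
      rw [cl_coe, Units.val_mk0]
      field_simp
  · intro u hu v hv h
    have h1 := congrArg Prod.fst h
    simp only at h1
    have hu1 := hone u (Finset.mem_filter.mp hu).2.2
    have hv1 := hone v (Finset.mem_filter.mp hv).2.2
    have h2 := key u (Finset.mem_filter.mp hu).2.2
    rw [h1, key v (Finset.mem_filter.mp hv).2.2] at h2
    rw [div_eq_div_iff hv1 hu1] at h2
    have h3 := mul_left_cancel₀ hxy0 h2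
    exact Units.ext (add_left_cancel h3)
  · intro z hz
    rw [Finset.mem_filter] at hz
    obtain ⟨_, hzx, hzy⟩ := hz
    have nx := adj4_ne e he hzx
    have ny := adj4_ne e he hzy
    have hune : (z.1 + x.1) / (z.1 + y.1) ≠ 0 := div_ne_zero nx ny
    have hu1 : Units.mk0 _ hune ≠ 1 := by
      intro h
      have h1 := congrArg (fun c : Lˣ => (c : L)) h
      simp only [Units.val_mk0, Units.val_one] at h1
      rw [div_eq_one_iff_eq ny] at h1
      exact hxy (add_left_cancel h1)
    have hval : (1 + (z.1 + x.1) / (z.1 + y.1)) = (x.1 + y.1) / (z.1 + y.1) := by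
      field_simp
      have := add_self_two z.1
      linear_combination this
    refine ⟨Units.mk0 _ hune, ?_, ?_⟩
    · rw [Finset.mem_filter]
      refine ⟨Finset.mem_univ _, ?_, hu1⟩
      rw [eq_mul_inv_iff_mul_eq]
      apply CC_ext
      push_cast
      rw [cl_coe, Units.val_mk0, div_pow]
      unfold adj4 at hzx hzy
      rw [hzx, hzy]
      field_simp
    · refine Prod.ext ?_ ?_
      · simp only [Units.val_mk0]
        rw [hval]
        rw [div_div_eq_mul_div, div_eq_iff hxy0]
        field_simp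
        have := add_self_two (x.1 * y.1)
        linear_combination this
      · simp only
        rw [mul_inv_eq_iff_eq_mul]
        apply CC_ext
        rw [cl_coe, Units.val_mk0]
        push_cast
        rw [Units.val_mk0, hval, div_div_cancel₀ hxy0]
        exact hzy

/-- the counting hypothesis of `bound` -/
theorem hcount4 (he0 : 0 < e) (he : e ∣ Fintype.card L - 1) (x y : L × CC L e) :
    ((Finset.univ.filter (fun z => adj4 e z x ∧ adj4 e z y)).card : ℝ)
      = (if x = y then ((Fintype.card L - 1 : ℕ) : ℝ) else 0) + (if x.1 = y.1 then 0 else (e : ℝ))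
        - (if x.1 ≠ y.1 ∧ x.2 = y.2 then (1 : ℝ) else 0) := by
  by_cases h1 : x.1 = y.1
  · by_cases h2 : x.2 = y.2
    · have hxy : x = y := Prod.ext h1 h2
      subst hxy
      have h3 := card_nbr e he0 x
      rw [Fintype.card_units] at h3
      simp [h3]
    · have hxy : x ≠ y := fun h => h2 (congrArg Prod.snd h)
      have h3 : (Finset.univ.filter (fun z => adj4 e z x ∧ adj4 e z y)) = ∅ := by
        rw [Finset.filter_eq_empty_iff]
        rintro z _ ⟨hx, hy⟩
        apply h2
        apply CC_ext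
        unfold adj4 at hx hy
        rw [h1, hy] at hx
        exact (mul_left_cancel₀ (Units.ne_zero _) hx).symm
      rw [h3]
      simp [h1, hxy]
  · have hxy : x ≠ y := fun h => h1 (congrArg Prod.fst h)
    rw [card_common e he0 x y h1]
    have h3 := card_fiber e he (x.2 * y.2⁻¹)
    rw [if_neg hxy, if_neg h1]
    by_cases h2 : x.2 = y.2
    · rw [if_pos ⟨h1, h2⟩]
      have h4 : (Finset.univ.filter (fun u : Lˣ => cl e u = x.2 * y.2⁻¹ ∧ u ≠ 1))
          = (Finset.univ.filter (fun u : Lˣ => cl e u = x.2 * y.2⁻¹)).erase 1 := by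
        ext u
        simp only [Finset.mem_filter, Finset.mem_univ, true_and, Finset.mem_erase]
        tauto
      have h5 : (1 : Lˣ) ∈ Finset.univ.filter (fun u : Lˣ => cl e u = x.2 * y.2⁻¹) := by
        rw [Finset.mem_filter]
        refine ⟨Finset.mem_univ _, ?_⟩
        rw [h2, mul_inv_cancel]
        apply Subtype.ext
        simp [cl]
      rw [h4, Finset.card_erase_of_mem h5, h3]
      push_cast [Nat.cast_sub he0]
      ring
    · rw [if_neg (fun h => h2 h.2)]
      have h4 : (Finset.univ.filter (fun u : Lˣ => cl e u = x.2 * y.2⁻¹ ∧ u ≠ 1))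
          = (Finset.univ.filter (fun u : Lˣ => cl e u = x.2 * y.2⁻¹)) := by
        ext u
        simp only [Finset.mem_filter, Finset.mem_univ, true_and, and_iff_left_iff_imp]
        rintro hu rfl
        apply h2
        rw [eq_comm, mul_inv_eq_iff_eq_mul] at hu
        rw [hu]
        apply CC_ext
        push_cast
        rw [cl_coe]
        simp
      rw [h4, h3]
      ring

theorem exists_four_aux (he0 : 0 < e) (he : e ∣ Fintype.card L - 1)
    (hs : ∀ x y : L, x ^ e = 1 → y ^ e = 1 → 1 + x + y ≠ 0) (n q : ℕ) (hq : Fintype.card L = q)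
    (hn : q * ((q - 1) / e) = n) :
    ∃ H : SimpleGraph (Fin n), H.IsRegularOfDegree (q - 1) ∧ H.CliqueFree 4 ∧
      ∀ x : Fin n → ℝ, (∑ i, x i) = 0 →
        |∑ i, ∑ j, (if H.Adj i j then x i * x j else 0)| ≤ Real.sqrt q * ∑ i, x i ^ 2 := by
  refine transport (G4 (L := L) e he0) _ _ _ _ ?_ ?_ ?_ ?_
  · rw [Fintype.card_prod, ← hn, ← hq]
    congr 1
    convert card_CC e he
  · intro v
    have h1 := card_nbr e he0 v
    rw [Fintype.card_units, hq] at h1
    rw [← h1]
    congr 1
    ext w
    simp only [Finset.mem_filter, Finset.mem_univ, true_and]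
    exact ⟨fun h => adj4_symm _ h, fun h => adj4_symm _ h⟩
  · exact G4_cliqueFree e he0 hs
  · intro f hf
    refine quad_bound (adj4 e) f q (by positivity) ?_
    have h1 := bound (adj4 (L := L) e) ((Fintype.card L - 1 : ℕ) : ℝ)
      (e : ℝ) 1 (by positivity) (by norm_num) (fun x y => by convert hcount4 e he0 he x y) f hf
    have h2 : (((Fintype.card L - 1 : ℕ) : ℝ) + 1) = (q : ℝ) := by
      rw [hq]
      have : 1 ≤ q := by rw [← hq]; exact Fintype.card_pos
      push_cast [Nat.cast_sub this]
      ring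
    rw [h2] at h1
    exact h1

end graph

/-- **`K_4`-free pseudorandom graphs.** For every `s` there is a `K_4`-free `d`-regular graph on
`n` vertices with `d = q s - 1`, `n = q s * NN s` and all eigenvalues orthogonal to the all-ones
vector at most `√(d+1)` in absolute value. -/
theorem exists_four (s : ℕ) :
    ∃ H : SimpleGraph (Fin (qq s * NN s)), H.IsRegularOfDegree (qq s - 1) ∧ H.CliqueFree 4 ∧
      ∀ x : Fin (qq s * NN s) → ℝ, (∑ i, x i) = 0 →
        |∑ i, ∑ j, (if H.Adj i j then x i * x j else 0)| ≤ Real.sqrt (qq s) * ∑ i, x i ^ 2 := by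
  have : Fact (Nat.Prime 2) := ⟨Nat.prime_two⟩
  have h4 : (4 ^ s : ℕ) ≠ 0 := by positivity
  let _ : Fintype (GaloisField 2 (4 ^ s)) := Fintype.ofFinite _
  have hcard : Fintype.card (GaloisField 2 (4 ^ s)) = qq s := by
    rw [← Nat.card_eq_fintype_card]
    exact GaloisField.card 2 _ h4
  have hen := ee_mul_NN s
  have hdvd : ee s ∣ Fintype.card (GaloisField 2 (4 ^ s)) - 1 := by
    rw [hcard, ← hen]
    exact ⟨NN s, by simp⟩
  refine exists_four_aux (L := GaloisField 2 (4 ^ s)) (ee s) (ee_pos s) hdvd (sumfree s) _ _ hcard ?_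
  rw [← hen, Nat.add_sub_cancel, Nat.mul_div_cancel_left _ (ee_pos s)]

end Pool.Agent.PRK
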