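import Mathlib
import Pool.Agent.PRK.KFour

/-!
# `K_4`-free pseudorandom graphs with `d ≥ n ^ (3/4) / 3` and `λ ≤ √(d + 1)`

The graphs are covers of complete graphs built from a tower of finite fields of characteristic two:
the group of `ee s`-th roots of unity in the field with `2 ^ (4 ^ s)` elements is sum-free and has
index about the cube root of the field size.
-/

set_option autoImplicit false
open Classical

namespace Pool.Agent.PRK

/-- For every `N` there are `n ≥ N` and a `K_4`-free `d`-regular graph on `n` vertices with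
`d ≥ n ^ (3/4) / 3` all of whose eigenvalues on vectors orthogonal to the all-ones vector are at
most `√(d + 1)` in absolute value. -/
theorem kfour_case :
    ∀ N : ℕ, ∃ n : ℕ, N ≤ n ∧
      ∃ G : SimpleGraph (Fin n), ∃ d : ℕ,
        G.IsRegularOfDegree d ∧
        G.CliqueFree 4 ∧
        (1 / 3 : ℝ) * (n : ℝ) ^ ((1 : ℝ) - 1 / 4) ≤ (d : ℝ) ∧
        ∀ x : Fin n → ℝ, (∑ i, x i) = 0 →
          |∑ i, ∑ j, (if G.Adj i j then x i * x j else 0)|
            ≤ Real.sqrt ((d : ℝ) + 1) * ∑ i, x i ^ 2 := by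
  intro N
  obtain ⟨H, h1, h2, h3⟩ := PRK.exists_four N
  have hq := PRK.two_le_qq N
  have hNN := PRK.NN_pos N
  have hen := PRK.ee_mul_NN N
  have hNs := PRK.NN_sq_le N
  refine ⟨PRK.qq N * PRK.NN N, ?_, H, PRK.qq N - 1, h1, h2, ?_, ?_⟩
  · have h4 : N ≤ PRK.qq N := by
      unfold PRK.qq
      calc N ≤ 4 ^ N := (Nat.lt_pow_self (by norm_num)).le
        _ ≤ 2 ^ (4 ^ N) := (Nat.lt_pow_self (by norm_num)).le
    calc N ≤ PRK.qq N := h4
      _ ≤ PRK.qq N * PRK.NN N := Nat.le_mul_of_pos_right _ hNN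
  · -- `n ^ 3 ≤ 81 d ^ 4`
    generalize PRK.qq N = q at *
    generalize PRK.NN N = n at *
    generalize PRK.ee N = e at *
    obtain ⟨d, rfl⟩ : ∃ d, q = d + 1 := ⟨q - 1, by omega⟩
    have hd : 1 ≤ d := by omega
    have hen' : e * n = d := by omega
    rw [Nat.add_sub_cancel]
    have h5 : ((d + 1) * n) ^ 3 ≤ 81 * d ^ 4 := by
      calc ((d + 1) * n) ^ 3 = (d + 1) ^ 3 * (n * n ^ 2) := by ring
        _ ≤ (d + 1) ^ 3 * (n * (3 * e)) := by gcongr
        _ = 3 * (d + 1) ^ 3 * d := by rw [← hen']; ring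
        _ ≤ 3 * (2 * d) ^ 3 * d := by gcongr; omega
        _ = 24 * d ^ 4 := by ring
        _ ≤ 81 * d ^ 4 := by gcongr; norm_num
    have h6 : (((d + 1) * n : ℕ) : ℝ) ^ 3 ≤ 81 * (d : ℝ) ^ 4 := by exact_mod_cast h5
    have hn0 : (0 : ℝ) ≤ (((d + 1) * n : ℕ) : ℝ) := Nat.cast_nonneg _
    have hd0 : (0 : ℝ) ≤ (d : ℝ) := Nat.cast_nonneg _
    refine le_of_pow_le_pow_left₀ (n := 4) (by norm_num) hd0 ?_
    have h7 : ((((d + 1) * n : ℕ) : ℝ) ^ ((1 : ℝ) - 1 / 4)) ^ 4 = (((d + 1) * n : ℕ) : ℝ) ^ 3 := by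
      rw [← Real.rpow_natCast, ← Real.rpow_mul hn0, ← Real.rpow_natCast]
      norm_num
    rw [mul_pow, h7]
    linarith
  · have h4 : (((PRK.qq N - 1 : ℕ) : ℝ) + 1) = (PRK.qq N : ℝ) := by
      push_cast [Nat.cast_sub (show 1 ≤ PRK.qq N by omega)]
      ring
    rw [h4]
    exact h3

end Pool.Agent.PRK
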