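import Mathlib
import Pool.Agent.PRK.Core

/-!
# `K_k`-free pseudorandom graphs of density `n ^ (-1/k)` for odd `k ≥ 5`

Let `k = 2 t + 1`, `D = t r - 1`, `L` the field with `2 ^ D` elements, `u` a generator of `L` over
`𝔽₂`, `lam : L → 𝔽₂` a nonzero functional and `proj x = (lam (u ^ i x))_{i < r}`.
The graph has vertex set `(L × L) × 𝔽₂ ^ r`, and `(v, z)` is adjacent to `(v', z')` if
`z + z' + proj (om v v')` is the last unit vector, where `om` is the determinant.

If `a_1, …, a_{2t}` are the differences of the vertices of a clique of size `2t+1`, then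
`lam (u ^ m om (a_i, a_j))` is `0` for `m < r - 1` and `1` for `m = r - 1`, `i ≠ j`. A triangular
argument shows that the `2 t r` elements `u ^ m a_i`, `m < r`, of `L × L` are independent over
`𝔽₂`, which is absurd, as `2 t r > 2 D`.
-/

set_option autoImplicit false
open Classical

namespace Pool.Agent.PRK

section odd

set_option linter.unusedSectionVars false

variable {L : Type} [Field L] [Fintype L] [Algebra (ZMod 2) L]

/-- the determinant form -/
def om (v w : L × L) : L := v.1 * w.2 + v.2 * w.1

theorem om_add_left (v w x : L × L) : om (v + w) x = om v x + om w x := by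
  simp only [om, Prod.fst_add, Prod.snd_add]; ring

theorem om_comm (v w : L × L) : om v w = om w v := by
  simp only [om]; ring

theorem om_smul_left (a : L) (v w : L × L) : om (a • v) w = a * om v w := by
  simp only [om, Prod.smul_fst, Prod.smul_snd, smul_eq_mul]; ring

theorem om_self [CharP L 2] (v : L × L) : om v v = 0 := by
  simp only [om]
  have := CharTwo.add_self_eq_zero (v.1 * v.2)
  linear_combination this

theorem om_zero_left (w : L × L) : om (0 : L × L) w = 0 := by simp [om]

variable (lam : L →ₗ[ZMod 2] ZMod 2) (u : L) (r : ℕ)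

/-- The projection `x ↦ (lam (u ^ i x))_i`. -/
def proj : L →ₗ[ZMod 2] (Fin r → ZMod 2) :=
  LinearMap.pi (fun i => lam ∘ₗ LinearMap.mulLeft (ZMod 2) (u ^ (i : ℕ)))

theorem proj_apply (x : L) (i : Fin r) : proj lam u r x i = lam (u ^ (i : ℕ) * x) := rfl

/-- the projection is surjective -/
theorem proj_surjective (hlam : lam ≠ 0)
    (hu : ∀ c : Fin r → ZMod 2, (∑ i, c i • u ^ (i : ℕ)) = 0 → c = 0) :
    Function.Surjective (proj lam u r) := by
  rw [← LinearMap.range_eq_top]
  by_contra hne
  obtain ⟨f, hf, hle⟩ := Submodule.exists_le_ker_of_lt_top _ (lt_top_iff_ne_top.mpr hne)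
  -- the coefficients of `f`
  set c : Fin r → ZMod 2 := fun i => f (Pi.single i 1) with hc
  have hfc : ∀ y : Fin r → ZMod 2, f y = ∑ i, c i * y i := by
    intro y
    have h1 : y = ∑ i, y i • (Pi.single i (1 : ZMod 2) : Fin r → ZMod 2) := by
      ext j
      simp [Finset.sum_apply, Pi.single_apply]
    conv_lhs => rw [h1]
    rw [map_sum]
    refine Finset.sum_congr rfl fun i _ => ?_
    rw [map_smul, smul_eq_mul, mul_comm]
  have h2 : ∀ x : L, lam ((∑ i, c i • u ^ (i : ℕ)) * x) = 0 := by
    intro x
    have h3 : proj lam u r x ∈ LinearMap.ker f := hle ⟨x, rfl⟩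
    rw [LinearMap.mem_ker, hfc] at h3
    rw [← h3, Finset.sum_mul, map_sum]
    refine Finset.sum_congr rfl fun i _ => ?_
    rw [smul_mul_assoc, map_smul, proj_apply, smul_eq_mul]
  have h4 : (∑ i, c i • u ^ (i : ℕ)) ≠ 0 := by
    intro h5
    apply hf
    have h6 := hu c h5
    ext i
    have : f (Pi.single i 1) = 0 := congrFun h6 i
    simpa using this
  apply hlam
  ext y
  have h5 := h2 ((∑ i, c i • u ^ (i : ℕ))⁻¹ * y)
  rw [mul_inv_cancel_left₀ h4] at h5
  simpa using h5

/-- the last unit vector -/
def e0 : Fin (r + 1) → ZMod 2 := Pi.single (Fin.last r) 1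

/-- Adjacency on `(L × L) × 𝔽₂ ^ (r+1)`. -/
def adjO (x y : (L × L) × (Fin (r + 1) → ZMod 2)) : Prop :=
  x.2 + y.2 + proj lam u (r + 1) (om x.1 y.1) = e0 r

theorem add_self_fun (z : Fin (r + 1) → ZMod 2) : z + z = 0 := by
  ext i
  exact CharTwo.add_self_eq_zero (z i)

theorem e0_ne : e0 r ≠ 0 := by
  intro h
  have := congrFun h (Fin.last r)
  simp [e0] at this

/-- The graph. -/
def GO [CharP L 2] : SimpleGraph ((L × L) × (Fin (r + 1) → ZMod 2)) where
  Adj x y := adjO lam u r x y
  symm := ⟨fun x y h => by
    unfold adjO at *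
    rw [om_comm, add_comm y.2]
    exact h⟩
  loopless := ⟨fun x h => by
    unfold adjO at h
    rw [om_self, map_zero, add_self_fun, zero_add] at h
    exact e0_ne r h.symm⟩

/-- **The independence lemma.** -/
theorem indep [CharP L 2] {m : ℕ} (hm : Even m) (a : Fin m → L × L)
    (ha : ∀ i j, i ≠ j → proj lam u (r + 1) (om (a i) (a j)) = e0 r)
    (c : Fin m → Fin (r + 1) → ZMod 2)
    (hc : ∑ i, ∑ n, (c i n • u ^ (n : ℕ)) • a i = 0) : c = 0 := by
  -- values of `lam`
  have hlow : ∀ i j, ∀ n : ℕ, n < r → lam (u ^ n * om (a i) (a j)) = 0 := by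
    intro i j n hn
    by_cases hij : i = j
    · rw [hij, om_self, mul_zero, map_zero]
    · have h1 := congrFun (ha i j hij) ⟨n, by omega⟩
      rw [proj_apply] at h1
      rw [h1]
      simp only [e0, Pi.single_apply]
      rw [if_neg]
      intro h
      have := congrArg Fin.val h
      simp at this
      omega
  have htop : ∀ i j, i ≠ j → lam (u ^ r * om (a i) (a j)) = 1 := by
    intro i j hij
    have h1 := congrFun (ha i j hij) (Fin.last r)
    rw [proj_apply] at h1
    simpa [e0] using h1
  -- pairing with a power of `u` and `a j`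
  have hpair : ∀ (j : Fin m) (s : ℕ), ∑ i, ∑ n : Fin (r + 1), c i n * lam (u ^ ((n : ℕ) + s) * om (a i) (a j)) = 0 := by
    intro j s
    have h1 : om (∑ i, ∑ n, (c i n • u ^ (n : ℕ)) • a i) (a j) = 0 := by rw [hc, om_zero_left]
    have h2 : ∀ (S : Finset (Fin m)) (g : Fin m → L × L), om (∑ i ∈ S, g i) (a j) = ∑ i ∈ S, om (g i) (a j) := by
      intro S g
      induction S using Finset.induction_on with
      | empty => simp [om_zero_left]
      | insert i S hi ih => rw [Finset.sum_insert hi, Finset.sum_insert hi, om_add_left, ih]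
    have h3 : ∀ (S : Finset (Fin (r + 1))) (g : Fin (r + 1) → L × L), om (∑ i ∈ S, g i) (a j) = ∑ i ∈ S, om (g i) (a j) := by
      intro S g
      induction S using Finset.induction_on with
      | empty => simp [om_zero_left]
      | insert i S hi ih => rw [Finset.sum_insert hi, Finset.sum_insert hi, om_add_left, ih]
    rw [h2] at h1
    simp_rw [h3, om_smul_left] at h1
    have h4 := congrArg (fun x => lam (u ^ s * x)) h1
    simp only [mul_zero, map_zero] at h4
    rw [← h4, Finset.mul_sum, map_sum]
    refine Finset.sum_congr rfl fun i _ => ?_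
    rw [Finset.mul_sum, map_sum]
    refine Finset.sum_congr rfl fun n _ => ?_
    rw [show u ^ s * (c i n • u ^ (n : ℕ) * om (a i) (a j))
      = c i n • (u ^ ((n : ℕ) + s) * om (a i) (a j)) by
        rw [pow_add, smul_mul_assoc, mul_smul_comm]; congr 1; ring]
    rw [map_smul, smul_eq_mul]
  -- downward induction
  have hdown : ∀ k : ℕ, k ≤ r + 1 → ∀ (i : Fin m) (n : Fin (r + 1)), r + 1 - k ≤ (n : ℕ) → c i n = 0 := by
    intro k
    induction k with
    | zero =>
      intro _ i n hn
      have := n.2
      omega
    | succ k ih =>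
      intro hk i n hn
      have ih' := ih (by omega)
      by_cases hnk : r + 1 - k ≤ (n : ℕ)
      · exact ih' i n hnk
      have hn' : (n : ℕ) = r - k := by omega
      -- the equations
      have heq : ∀ j : Fin m, ∑ i, (if i = j then 0 else c i n) = 0 := by
        intro j
        have h1 := hpair j k
        refine Eq.trans ?_ h1
        refine Finset.sum_congr rfl fun i _ => ?_
        rw [Finset.sum_eq_single n]
        · by_cases hij : i = j
          · rw [if_pos hij, hij, om_self, mul_zero, map_zero, mul_zero]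
          · rw [if_neg hij, show (n : ℕ) + k = r by omega, htop i j hij, mul_one]
        · intro n' _ hne
          have hne' : (n' : ℕ) ≠ (n : ℕ) := fun h => hne (Fin.ext h)
          by_cases hlt : (n' : ℕ) < (n : ℕ)
          · rw [hlow i j _ (by omega), mul_zero]
          · rw [ih' i n' (by omega), zero_mul]
        · intro h
          exact absurd (Finset.mem_univ n) h
      have hs : ∀ j : Fin m, c j n = ∑ i, c i n := by
        intro j
        have h1 := heq j
        have h2 : ∑ i, (if i = j then 0 else c i n) + c j n = ∑ i, c i n := by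
          rw [← Finset.sum_filter_add_sum_filter_not Finset.univ (fun i => i = j) (fun i => c i n)]
          rw [Finset.sum_ite, Finset.sum_const_zero, zero_add]
          rw [Finset.filter_eq' Finset.univ j, if_pos (Finset.mem_univ j), Finset.sum_singleton]
          ring
        rw [h1, zero_add] at h2
        exact h2
      have h3 : ∑ i, c i n = 0 := by
        obtain ⟨t, rfl⟩ := hm
        conv_lhs =>
          arg 2
          ext i
          rw [hs i]
        rw [Finset.sum_const, Finset.card_univ, Fintype.card_fin, nsmul_eq_mul]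
        push_cast
        rw [CharTwo.add_self_eq_zero, zero_mul]
      rw [hs i, h3]
  funext i n
  exact hdown (r + 1) le_rfl i n (by omega)

/-- no `2t+1` pairwise adjacent vertices -/
theorem GO_cliqueFree [CharP L 2] (t : ℕ)
    (hcard : Fintype.card (L × L) < 2 ^ (2 * t * (r + 1))) :
    (GO lam u r).CliqueFree (2 * t + 1) := by
  rw [SimpleGraph.cliqueFree_iff]
  refine ⟨fun φ => ?_⟩
  have hadj : ∀ i j : Fin (2 * t + 1), i ≠ j → adjO lam u r (φ i) (φ j) := by
    intro i j hij
    exact φ.toHom.map_adj (show (SimpleGraph.completeGraph (Fin (2 * t + 1))).Adj i j from hij)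
  set a : Fin (2 * t) → L × L := fun i => (φ i.succ).1 + (φ 0).1 with ha
  have hB : ∀ i j, i ≠ j → proj lam u (r + 1) (om (a i) (a j)) = e0 r := by
    intro i j hij
    have h1 := hadj i.succ j.succ (fun h => hij (Fin.succ_injective _ h))
    have h2 := hadj i.succ 0 (Fin.succ_ne_zero _)
    have h3 := hadj 0 j.succ (Fin.succ_ne_zero _).symm
    unfold adjO at h1 h2 h3
    have h4 : om (a i) (a j) = om (φ i.succ).1 (φ j.succ).1 + om (φ i.succ).1 (φ 0).1
        + om (φ 0).1 (φ j.succ).1 := by
      have h5 := om_self (φ 0).1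
      rw [ha]
      simp only [om_add_left]
      rw [om_comm _ ((φ j.succ).1 + (φ 0).1), om_comm _ ((φ j.succ).1 + (φ 0).1), om_add_left,
        om_add_left, h5, om_comm (φ j.succ).1, om_comm (φ j.succ).1, om_comm (φ 0).1 (φ i.succ).1]
      ring
    rw [h4, map_add, map_add]
    have hz := add_self_fun r
    have e1 : proj lam u (r + 1) (om (φ i.succ).1 (φ j.succ).1)
        = e0 r + ((φ i.succ).2 + (φ j.succ).2) := by
      rw [← h1]
      have := hz ((φ i.succ).2 + (φ j.succ).2)
      linear_combination (exp := 1) -this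
    have e2 : proj lam u (r + 1) (om (φ i.succ).1 (φ 0).1)
        = e0 r + ((φ i.succ).2 + (φ 0).2) := by
      rw [← h2]
      have := hz ((φ i.succ).2 + (φ 0).2)
      linear_combination (exp := 1) -this
    have e3 : proj lam u (r + 1) (om (φ 0).1 (φ j.succ).1)
        = e0 r + ((φ 0).2 + (φ j.succ).2) := by
      rw [← h3]
      have := hz ((φ 0).2 + (φ j.succ).2)
      linear_combination (exp := 1) -this
    rw [e1, e2, e3]
    have f1 := hz (φ i.succ).2
    have f2 := hz (φ j.succ).2
    have f3 := hz (φ 0).2
    have f4 := hz (e0 r)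
    linear_combination (exp := 1) f1 + f2 + f3 + f4
  -- the injection
  have hinj : Function.Injective (fun c : Fin (2 * t) → Fin (r + 1) → ZMod 2 =>
      ∑ i, ∑ n, (c i n • u ^ (n : ℕ)) • a i) := by
    intro c c' hcc
    have h1 : c + c' = 0 := by
      refine indep lam u r (even_two_mul t) a hB (c + c') ?_
      have h2 : ∑ i, ∑ n : Fin (r + 1), ((c + c') i n • u ^ (n : ℕ)) • a i
          = ∑ i, ∑ n, (c i n • u ^ (n : ℕ)) • a i + ∑ i, ∑ n, (c' i n • u ^ (n : ℕ)) • a i := by
        rw [← Finset.sum_add_distrib]
        refine Finset.sum_congr rfl fun i _ => ?_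
        rw [← Finset.sum_add_distrib]
        refine Finset.sum_congr rfl fun n _ => ?_
        rw [Pi.add_apply, Pi.add_apply, add_smul, add_smul]
      simp only at hcc
      rw [h2, hcc]
      ext
      · exact CharTwo.add_self_eq_zero _
      · exact CharTwo.add_self_eq_zero _
    funext i n
    have h3 := congrFun (congrFun h1 i) n
    have h4 : c i n + c' i n = 0 := h3
    have h5 : c' i n + c' i n = 0 := CharTwo.add_self_eq_zero _
    linear_combination h4 - h5
  have h6 := Fintype.card_le_of_injective _ hinj
  simp only [Fintype.card_fun, Fintype.card_fin, ZMod.card] at h6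
  rw [← pow_mul, mul_comm (r + 1)] at h6
  omega

/-- the number of neighbours -/
theorem card_nbrO [CharP L 2] (x : (L × L) × (Fin (r + 1) → ZMod 2)) :
    (Finset.univ.filter (fun z => adjO lam u r z x)).card = Fintype.card (L × L) := by
  rw [← Finset.card_univ]
  symm
  refine Finset.card_bij (fun w _ => (w, x.2 + proj lam u (r + 1) (om w x.1) + e0 r)) ?_ ?_ ?_
  · intro w _
    rw [Finset.mem_filter]
    refine ⟨Finset.mem_univ _, ?_⟩
    unfold adjO
    simp only
    have f1 := add_self_fun r x.2
    have f2 := add_self_fun r (proj lam u (r + 1) (om w x.1))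
    linear_combination (exp := 1) f1 + f2
  · intro a _ b _ h
    exact congrArg Prod.fst h
  · intro z hz
    rw [Finset.mem_filter] at hz
    have h1 := hz.2
    refine ⟨z.1, Finset.mem_univ _, ?_⟩
    refine Prod.ext rfl ?_
    simp only
    unfold adjO at h1
    rw [← h1]
    have f1 := add_self_fun r x.2
    have f2 := add_self_fun r (proj lam u (r + 1) (om z.1 x.1))
    linear_combination (exp := 1) f1 + f2

/-- fibres of a surjective additive map -/
theorem card_fiber_surj {A B : Type} [AddCommGroup A] [Fintype A] [AddCommGroup B] [Fintype B]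
    (f : A → B) (hadd : ∀ x y, f (x + y) = f x + f y) (hf : Function.Surjective f) (b : B) :
    (Finset.univ.filter (fun x => f x = b)).card * Fintype.card B = Fintype.card A := by
  have hconst : ∀ b' : B, (Finset.univ.filter (fun x => f x = b')).card
      = (Finset.univ.filter (fun x => f x = b)).card := by
    intro b'
    obtain ⟨a0, ha0⟩ := hf (b - b')
    refine Finset.card_bij (fun x _ => x + a0) ?_ ?_ ?_
    · intro x hx
      rw [Finset.mem_filter] at hx ⊢
      exact ⟨Finset.mem_univ _, by rw [hadd, hx.2, ha0]; abel⟩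
    · intro x _ y _ h
      exact add_right_cancel h
    · intro y hy
      rw [Finset.mem_filter] at hy
      refine ⟨y - a0, ?_, by abel⟩
      rw [Finset.mem_filter]
      refine ⟨Finset.mem_univ _, ?_⟩
      have h1 := hadd (y - a0) a0
      rw [sub_add_cancel, hy.2, ha0] at h1
      exact (add_right_cancel (b := b - b') (by rw [← h1]; abel))
  have h2 := Finset.card_eq_sum_card_fiberwise (f := f) (s := Finset.univ) (t := Finset.univ)
    (fun _ _ => Finset.mem_coe.mpr (Finset.mem_univ _))
  rw [← Finset.card_univ (α := A), h2, Finset.sum_congr rfl (fun b' _ => hconst b'), Finset.sum_const,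
    smul_eq_mul, Finset.card_univ, mul_comm]

/-- the numbers of common neighbours, different first coordinates -/
theorem card_commonO [CharP L 2] (hsurj : Function.Surjective (proj lam u (r + 1)))
    (x y : (L × L) × (Fin (r + 1) → ZMod 2)) (hxy : x.1 ≠ y.1) :
    (Finset.univ.filter (fun z => adjO lam u r z x ∧ adjO lam u r z y)).card * 2 ^ (r + 1)
      = Fintype.card (L × L) := by
  set a : L × L := x.1 + y.1 with ha
  have ha0 : a ≠ 0 := by
    intro h
    apply hxy
    have h1 : y.1 + y.1 = 0 := by
      ext
      · exact CharTwo.add_self_eq_zero _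
      · exact CharTwo.add_self_eq_zero _
    calc x.1 = a + (y.1 + y.1) - y.1 := by rw [ha, h1]; ext <;> simp
      _ = y.1 := by rw [h, h1]; ext <;> simp [sub_eq_add_neg, CharTwo.neg_eq]
  have hf : Function.Surjective (fun w : L × L => proj lam u (r + 1) (om w a)) := by
    intro b
    obtain ⟨z, hz⟩ := hsurj b
    by_cases h1 : a.1 = 0
    · have h2 : a.2 ≠ 0 := fun h => ha0 (Prod.ext h1 h)
      refine ⟨(z / a.2, 0), ?_⟩
      simp only [om, zero_mul, add_zero]
      rw [div_mul_cancel₀ _ h2, hz]
    · refine ⟨(0, z / a.1), ?_⟩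
      simp only [om, zero_mul, zero_add]
      rw [div_mul_cancel₀ _ h1, hz]
  have h3 := card_fiber_surj (fun w : L × L => proj lam u (r + 1) (om w a))
    (fun v w => by rw [om_add_left, map_add]) hf (x.2 + y.2)
  have h4 : Fintype.card (Fin (r + 1) → ZMod 2) = 2 ^ (r + 1) := by
    simp [ZMod.card]
  rw [h4] at h3
  rw [← h3]
  congr 1
  symm
  refine Finset.card_bij (fun w _ => (w, x.2 + proj lam u (r + 1) (om w x.1) + e0 r)) ?_ ?_ ?_
  · intro w hw
    have h5 : proj lam u (r + 1) (om w a) = x.2 + y.2 := by
      simpa only [Finset.mem_filter, Finset.mem_univ, true_and] using hw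
    rw [ha, om_comm, om_add_left, map_add, om_comm x.1, om_comm y.1] at h5
    refine Finset.mem_filter.mpr ⟨Finset.mem_univ _, ?_, ?_⟩
    · unfold adjO
      simp only
      have f1 := add_self_fun r x.2
      have f2 := add_self_fun r (proj lam u (r + 1) (om w x.1))
      linear_combination (exp := 1) f1 + f2
    · unfold adjO
      simp only
      have f1 := add_self_fun r x.2
      have f2 := add_self_fun r y.2
      linear_combination (exp := 1) h5 + f1 + f2
  · intro a _ b _ h
    exact congrArg Prod.fst h
  · intro z hz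
    rw [Finset.mem_filter] at hz
    obtain ⟨_, h5, h6⟩ := hz
    unfold adjO at h5 h6
    refine ⟨z.1, ?_, ?_⟩
    · simp only [Finset.mem_filter, Finset.mem_univ, true_and]
      rw [ha, om_comm, om_add_left, map_add, om_comm x.1, om_comm y.1]
      have f1 := add_self_fun r x.2
      have f2 := add_self_fun r y.2
      have f3 := add_self_fun r z.2
      have f4 := add_self_fun r (e0 r)
      linear_combination (exp := 1) h5 + h6 - f1 - f2 - f3 + f4
    · refine Prod.ext rfl ?_
      simp only
      rw [← h5]
      have f1 := add_self_fun r x.2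
      have f2 := add_self_fun r (proj lam u (r + 1) (om z.1 x.1))
      linear_combination (exp := 1) f1 + f2

/-- the counting hypothesis of `bound` -/
theorem hcountO [CharP L 2] (hsurj : Function.Surjective (proj lam u (r + 1)))
    (x y : (L × L) × (Fin (r + 1) → ZMod 2)) :
    ((Finset.univ.filter (fun z => adjO lam u r z x ∧ adjO lam u r z y)).card : ℝ)
      = (if x = y then ((Fintype.card (L × L) : ℕ) : ℝ) else 0)
        + (if x.1 = y.1 then 0 else ((Fintype.card (L × L) : ℕ) : ℝ) / 2 ^ (r + 1))
        - (if x.1 ≠ y.1 ∧ x.2 = y.2 then (0 : ℝ) else 0) := by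
  by_cases h1 : x.1 = y.1
  · by_cases h2 : x.2 = y.2
    · have hxy : x = y := Prod.ext h1 h2
      subst hxy
      simp [card_nbrO]
    · have hxy : x ≠ y := fun h => h2 (congrArg Prod.snd h)
      have h3 : (Finset.univ.filter (fun z => adjO lam u r z x ∧ adjO lam u r z y)) = ∅ := by
        rw [Finset.filter_eq_empty_iff]
        rintro z _ ⟨hx, hy⟩
        apply h2
        unfold adjO at hx hy
        rw [h1, ← hy] at hx
        linear_combination (exp := 1) hx
      rw [h3]
      simp [h1, hxy]
  · have hxy : x ≠ y := fun h => h1 (congrArg Prod.fst h)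
    rw [if_neg hxy, if_neg h1]
    have h3 := card_commonO lam u r hsurj x y h1
    have h4 : ((Finset.univ.filter (fun z => adjO lam u r z x ∧ adjO lam u r z y)).card : ℝ)
        = ((Fintype.card (L × L) : ℕ) : ℝ) / 2 ^ (r + 1) := by
      rw [eq_div_iff (by positivity), ← h3]
      push_cast
      ring
    rw [h4]
    simp

theorem exists_odd_aux [CharP L 2] (hsurj : Function.Surjective (proj lam u (r + 1))) (t n d : ℕ)
    (hd : Fintype.card (L × L) = d) (hn : d * 2 ^ (r + 1) = n) (hdt : d < 2 ^ (2 * t * (r + 1))) :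
    ∃ H : SimpleGraph (Fin n), H.IsRegularOfDegree d ∧ H.CliqueFree (2 * t + 1) ∧
      ∀ x : Fin n → ℝ, (∑ i, x i) = 0 →
        |∑ i, ∑ j, (if H.Adj i j then x i * x j else 0)| ≤ Real.sqrt d * ∑ i, x i ^ 2 := by
  refine transport (GO lam u r) _ _ _ _ ?_ ?_ ?_ ?_
  · rw [Fintype.card_prod, hd, ← hn]
    simp [ZMod.card]
  · intro v
    have h1 := card_nbrO lam u r v
    rw [hd] at h1
    rw [← h1]
    congr 1
    ext w
    simp only [Finset.mem_filter, Finset.mem_univ, true_and]
    exact ⟨fun h => (show (GO lam u r).Adj v w from h).symm,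
      fun h => (show (GO lam u r).Adj w v from h).symm⟩
  · exact GO_cliqueFree lam u r t (by rw [hd]; exact hdt)
  · intro f hf
    refine quad_bound (adjO lam u r) f d (by positivity) ?_
    have h1 := bound (adjO lam u r) ((Fintype.card (L × L) : ℕ) : ℝ)
      (((Fintype.card (L × L) : ℕ) : ℝ) / 2 ^ (r + 1)) 0 (by positivity) le_rfl
      (fun x y => by convert hcountO lam u r hsurj x y) f hf
    rw [add_zero, hd] at h1
    exact h1

end odd

/-- **`K_k`-free pseudorandom graphs, `k = 2t+1 ≥ 5`.** For every `r ≥ 1` there is a `K_{2t+1}`-free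
`d`-regular graph on `n` vertices, `d = 2 ^ (2 (t r - 1))`, `n = d * 2 ^ r`, with all eigenvalues
orthogonal to the all-ones vector at most `√d` in absolute value. -/
theorem exists_odd (t : ℕ) (ht : 2 ≤ t) (r : ℕ) :
    ∃ H : SimpleGraph (Fin (2 ^ (2 * (t * (r + 1) - 1)) * 2 ^ (r + 1))),
      H.IsRegularOfDegree (2 ^ (2 * (t * (r + 1) - 1))) ∧ H.CliqueFree (2 * t + 1) ∧
      ∀ x : Fin (2 ^ (2 * (t * (r + 1) - 1)) * 2 ^ (r + 1)) → ℝ, (∑ i, x i) = 0 →
        |∑ i, ∑ j, (if H.Adj i j then x i * x j else 0)|
          ≤ Real.sqrt ((2 ^ (2 * (t * (r + 1) - 1)) : ℕ) : ℝ) * ∑ i, x i ^ 2 := by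
  have : Fact (Nat.Prime 2) := ⟨Nat.prime_two⟩
  set D := t * (r + 1) - 1 with hD
  have htr : 2 * (r + 1) ≤ t * (r + 1) := Nat.mul_le_mul_right _ ht
  have hD0 : D ≠ 0 := by omega
  have hrD : r + 1 ≤ D := by omega
  let _ : Fintype (GaloisField 2 D) := Fintype.ofFinite _
  have hcard : Fintype.card (GaloisField 2 D) = 2 ^ D := by
    rw [← Nat.card_eq_fintype_card]
    exact GaloisField.card 2 _ hD0
  have hfin : Module.finrank (ZMod 2) (GaloisField 2 D) = D := GaloisField.finrank 2 hD0
  obtain ⟨u, hu⟩ := Field.exists_primitive_element (ZMod 2) (GaloisField 2 D)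
  have hint : IsIntegral (ZMod 2) u := Algebra.IsIntegral.isIntegral u
  have hdeg : (minpoly (ZMod 2) u).natDegree = D := by
    rw [← IntermediateField.adjoin.finrank hint, hu, IntermediateField.finrank_top', hfin]
  obtain ⟨lam, hlam⟩ : ∃ lam : GaloisField 2 D →ₗ[ZMod 2] ZMod 2, lam ≠ 0 :=
    ⟨Algebra.trace (ZMod 2) (GaloisField 2 D), Algebra.trace_ne_zero _ _⟩
  have hsurj : Function.Surjective (proj lam u (r + 1)) := by
    refine proj_surjective lam u (r + 1) hlam ?_
    intro c hc
    by_contra hne
    set p : Polynomial (ZMod 2) := ∑ i : Fin (r + 1), Polynomial.monomial (i : ℕ) (c i) with hp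
    have hcoeff : ∀ i : Fin (r + 1), p.coeff i = c i := by
      intro i
      rw [hp, Polynomial.finsetSum_coeff]
      simp only [Polynomial.coeff_monomial]
      rw [Finset.sum_eq_single i]
      · simp
      · intro j _ hj
        rw [if_neg (fun h => hj (Fin.ext h))]
      · simp
    have hp0 : p ≠ 0 := by
      intro h
      apply hne
      funext i
      rw [← hcoeff i, h]
      simp
    have haev : Polynomial.aeval u p = 0 := by
      rw [hp, map_sum, ← hc]
      refine Finset.sum_congr rfl fun i _ => ?_
      rw [Polynomial.aeval_monomial, Algebra.smul_def]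
    have h1 := Polynomial.natDegree_le_natDegree (minpoly.degree_le_of_ne_zero (ZMod 2) u hp0 haev)
    have h2 : p.natDegree < r + 1 := by
      rw [Polynomial.natDegree_lt_iff_degree_lt hp0, Polynomial.degree_lt_iff_coeff_zero]
      intro n hn
      rw [hp, Polynomial.finsetSum_coeff]
      refine Finset.sum_eq_zero fun i _ => ?_
      rw [Polynomial.coeff_monomial, if_neg]
      have := i.2
      omega
    omega
  refine exists_odd_aux lam u r hsurj t _ _ ?_ rfl ?_
  · rw [Fintype.card_prod, hcard, ← pow_add]
    congr 1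
    ring
  · apply Nat.pow_lt_pow_right (by norm_num)
    have : 2 * t * (r + 1) = 2 * (t * (r + 1)) := by ring
    omega

end Pool.Agent.PRK
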