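import Mathlib
import Pool.Agent.PRK.Odd

/-!
# `K_k`-free pseudorandom graphs for odd `k ≥ 5`, with `d ≥ n ^ (1 - 1/k) / 2` and `λ ≤ √d`
-/

set_option autoImplicit false
open Classical

namespace Pool.Agent.PRK

/-- For every odd `k ≥ 5` and every `N` there are `n ≥ N` and a `K_k`-free `d`-regular graph on `n`
vertices with `d ≥ n ^ (1 - 1/k) / 2` all of whose eigenvalues on vectors orthogonal to the all-ones
vector are at most `√d` in absolute value. -/
theorem odd_case :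
    ∀ k : ℕ, 5 ≤ k → Odd k →
      ∀ N : ℕ, ∃ n : ℕ, N ≤ n ∧
        ∃ G : SimpleGraph (Fin n), ∃ d : ℕ,
          G.IsRegularOfDegree d ∧
          G.CliqueFree k ∧
          (1 / 2 : ℝ) * (n : ℝ) ^ ((1 : ℝ) - 1 / (k : ℝ)) ≤ (d : ℝ) ∧
          ∀ x : Fin n → ℝ, (∑ i, x i) = 0 →
            |∑ i, ∑ j, (if G.Adj i j then x i * x j else 0)|
              ≤ Real.sqrt (d : ℝ) * ∑ i, x i ^ 2 := by
  intro k hk hodd N
  obtain ⟨t, rfl⟩ := hodd
  have ht : 2 ≤ t := by omega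
  obtain ⟨H, h1, h2, h3⟩ := exists_odd t ht N
  have htr : 2 * (N + 1) ≤ t * (N + 1) := Nat.mul_le_mul_right _ ht
  refine ⟨_, ?_, H, _, h1, h2, ?_, h3⟩
  · calc N ≤ 2 ^ N := Nat.lt_two_pow_self.le
      _ ≤ 2 ^ (N + 1) := Nat.pow_le_pow_right (by norm_num) (by omega)
      _ ≤ 2 ^ (2 * (t * (N + 1) - 1)) * 2 ^ (N + 1) := Nat.le_mul_of_pos_left _ (by positivity)
  · rw [← pow_add]
    push_cast
    have hm : ((2 * (t * (N + 1) - 1) + (N + 1) : ℕ) : ℝ) = (2 * t + 1) * (N + 1) - 2 := by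
      rw [Nat.cast_add, Nat.cast_mul, Nat.cast_sub (by omega)]
      push_cast
      ring
    have hd : ((2 * (t * (N + 1) - 1) : ℕ) : ℝ) = 2 * t * (N + 1) - 2 := by
      rw [Nat.cast_mul, Nat.cast_sub (by omega)]
      push_cast
      ring
    have hk0 : (0 : ℝ) < 2 * t + 1 := by positivity
    have hk2 : (2 : ℝ) ≤ 2 * t + 1 := by
      have : (2 : ℝ) ≤ t := by exact_mod_cast ht
      linarith
    rw [← Real.rpow_natCast, ← Real.rpow_natCast, ← Real.rpow_mul (by norm_num), hm, hd]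
    have hexp : ((2 * (t : ℝ) + 1) * (N + 1) - 2) * (1 - 1 / (2 * t + 1))
        ≤ (2 * t * (N + 1) - 2) + 1 := by
      have h4 : ((2 * (t : ℝ) + 1) * (N + 1) - 2) * (1 - 1 / (2 * t + 1))
          = 2 * t * (N + 1) - 2 + 2 / (2 * t + 1) := by
        field_simp
        ring
      rw [h4]
      have h5 : 2 / (2 * (t : ℝ) + 1) ≤ 1 := by
        rw [div_le_one hk0]; exact hk2
      linarith
    calc (1 / 2 : ℝ) * (2 : ℝ) ^ (((2 * (t : ℝ) + 1) * (N + 1) - 2) * (1 - 1 / (2 * t + 1)))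
        ≤ (1 / 2 : ℝ) * (2 : ℝ) ^ ((2 * (t : ℝ) * (N + 1) - 2) + 1) := by
          gcongr
          norm_num
      _ = (2 : ℝ) ^ (2 * (t : ℝ) * (N + 1) - 2) := by
          rw [Real.rpow_add (by norm_num), Real.rpow_one]
          ring

end Pool.Agent.PRK
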